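import Pool.Agent.H77.Q.Words
import Pool.Agent.H97.Q.Mat

set_option autoImplicit false

/-!
Rooted codes with sides (MP_a46c6f_co, full Q1): closed pairs have midpoints, the paths have bad
points. The bridge from helper77's words to helper97's matrix structure.
-/

namespace Pool.Agent.H86.Q

open Pool.Agent.H98.Code Pool.Agent.H17.TR Pool.Agent.H17.P3 Pool.Agent.H77.P3 Pool.Agent.H77.Q
  Pool.Agent.H97.Q

section
variable {V : Type} [Fintype V] [DecidableEq V] {B : Submodule (ZMod 2) (V → K)}
  {H : V → V → ZMod 2} {e : V} {S : (V → K) → Finset V → Prop} {M : V → V → ZMod 2}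

/-- the word of a set -/
def wd (M H : V → V → ZMod 2) (e : V) (T : Finset V) : V → K := ∑ x ∈ T, rw' M H e x

theorem wd_mem (C : Ctx B H e S M) (T : Finset V) : wd M H e T ∈ B :=
  B.sum_mem fun x _ => rw_mem C x

theorem wd_fst (T : Finset V) (w : V) : (wd M H e T w).1 = ∑ x ∈ T, M w x := by
  unfold wd
  rw [Finset.sum_apply, Prod.fst_sum]
  rfl

theorem tt_sum (T : Finset V) (f : V → V → K) (w : V) :
    tt H (∑ x ∈ T, f x) w = ∑ x ∈ T, tt H (f x) w := by
  unfold tt
  rw [Finset.sum_apply, Prod.fst_sum, Prod.snd_sum, Finset.mul_sum, ← Finset.sum_add_distrib]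

theorem tt_smul (c : ZMod 2) (u : V → K) (w : V) : tt H (c • u) w = c * tt H u w := by
  unfold tt
  simp only [Pi.smul_apply, Prod.smul_fst, Prod.smul_snd, smul_eq_mul]
  ring

theorem tt_om (w : V) : tt H (om H) w = 0 := by
  unfold tt om
  simp only [mul_one]
  exact CharTwo.add_self_eq_zero _

theorem tt_wd {T : Finset V} (hev : ∑ _x ∈ T, (1 : ZMod 2) = 0) (w : V) :
    tt H (wd M H e T) w = if w ∈ T then 1 else 0 := by
  unfold wd
  rw [tt_sum, Finset.sum_congr rfl fun x _ => tt_rw x w, Finset.sum_add_distrib,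
    Finset.sum_ite_eq]
  by_cases hw : w = e
  · simp only [if_pos hw]
    rw [hev, add_zero]
  · simp only [if_neg hw, Finset.sum_const_zero, add_zero]

theorem isT_wd (C : Ctx B H e S M) {T : Finset V} (he : e ∉ T)
    (hev : ∑ _x ∈ T, (1 : ZMod 2) = 0) (h1 : ∀ v ∈ T, ∑ x ∈ T, M v x = 1) :
    IsT B H e T (wd M H e T) := by
  refine ⟨wd_mem C T, ?_, ?_, ?_, ?_⟩
  · apply eq_zero_of (H := H)
    · rw [wd_fst]
      exact Finset.sum_eq_zero fun x _ => C.he x
    · rw [tt_wd hev, if_neg he]
  · intro v hv
    rw [wd_fst]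
    exact h1 v hv
  · intro v hv
    rw [tt_wd hev, if_pos hv]
  · intro v hv
    rw [tt_wd hev, if_neg hv]

/-- what is needed from a good set -/
structure GD (M : V → V → ZMod 2) (e : V) (T : Finset V) : Prop where
  he : e ∉ T
  hev : ∑ _x ∈ T, (1 : ZMod 2) = 0
  h1 : ∀ v ∈ T, ∑ x ∈ T, M v x = 1
  irr : ∀ σ : V → ZMod 2, ∑ x ∈ T, σ x = 0 → (∀ v ∈ T, ∑ x ∈ T, M v x * σ x = σ v) →
    (∀ v ∈ T, σ v = 0) ∨ (∀ v ∈ T, σ v = 1)
  sol : ∀ m : V → ZMod 2, ∑ x ∈ T, m x = 0 →
    ∃ (σ : V → ZMod 2) (α : ZMod 2), ∀ v ∈ T, m v + ∑ x ∈ T, σ x * M v x + α = σ v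
  ne : T.Nonempty

theorem gd_pair (C : Ctx B H e S M) {u v : V} (h : CP M u v) : GD M e {u, v} := by
  have hne := h.ne
  obtain ⟨huu, huv⟩ := h
  refine ⟨?_, ?_, ?_, ?_, ?_, ⟨u, by simp⟩⟩
  · intro h0
    rw [Finset.mem_insert, Finset.mem_singleton] at h0
    rcases h0 with h0 | h0
    · apply huv
      rw [← h0, C.he, C.he]
    · apply huv
      rw [huu, C.hM u v, ← h0, C.he, C.he]
  · rw [Finset.sum_pair hne]
    decide
  · intro w hw
    rw [Finset.sum_pair hne]
    rw [Finset.mem_insert, Finset.mem_singleton] at hw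
    rcases hw with rfl | rfl
    · revert huv
      generalize M w w = a
      generalize M w v = b
      revert a b
      decide
    · rw [C.hM w u, ← huu]
      revert huv
      generalize M u u = a
      generalize M u w = b
      revert a b
      decide
  · intro σ hs _
    rw [Finset.sum_pair hne] at hs
    rcases z2 (σ u) with h1 | h1
    · left
      intro w hw
      rw [Finset.mem_insert, Finset.mem_singleton] at hw
      rcases hw with rfl | rfl
      · exact h1
      · rw [h1, zero_add] at hs
        exact hs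
    · right
      intro w hw
      rw [Finset.mem_insert, Finset.mem_singleton] at hw
      rcases hw with rfl | rfl
      · exact h1
      · rw [h1] at hs
        revert hs
        generalize σ w = a
        revert a
        decide
  · intro m hm
    rw [Finset.sum_pair hne] at hm
    refine ⟨fun x => if x = u then (1 + M u u) * m u else 0, M u u * m u, ?_⟩
    have hvu : ¬ v = u := fun h0 => hne h0.symm
    intro w hw
    rw [Finset.sum_pair hne]
    simp only [if_pos, if_neg hvu, zero_mul, add_zero]
    rw [Finset.mem_insert, Finset.mem_singleton] at hw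
    rcases hw with rfl | rfl
    · simp only [if_true]
      generalize M w w = a
      generalize m w = b
      revert a b
      decide
    · rw [if_neg hvu, C.hM w u]
      revert hm huv
      generalize M u u = a
      generalize M u w = b
      generalize m u = c
      generalize m w = d
      revert a b c d
      decide

theorem gd_p4 (C : Ctx B H e S M) {a b c d : V} (h : IsP4 M a b c d) (haa : M a a = 0)
    (hbb : M b b = 1) (hcc : M c c = 1) (hdd : M d d = 0) : GD M e {a, b, c, d} := by
  obtain ⟨hab, hbc, hcd, hac, had, hbd⟩ := h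
  have n01 : (0 : ZMod 2) ≠ 1 := by decide
  have hM := C.hM
  have nab : a ≠ b := by
    rintro rfl
    exact n01 (haa.symm.trans hbb)
  have nac : a ≠ c := by
    rintro rfl
    exact n01 (haa.symm.trans hcc)
  have nad : a ≠ d := by
    rintro rfl
    exact n01 (hbd.symm.trans (by rw [hM b a]; exact hab))
  have nbc : b ≠ c := by
    rintro rfl
    exact n01 (hac.symm.trans hab)
  have nbd : b ≠ d := by
    rintro rfl
    exact n01 (hdd.symm.trans hbb)
  have ncd : c ≠ d := by
    rintro rfl
    exact n01 (hdd.symm.trans hcc)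
  have hba := (hM b a).trans hab
  have hcb := (hM c b).trans hbc
  have hdc := (hM d c).trans hcd
  have hca := (hM c a).trans hac
  have hda := (hM d a).trans had
  have hdb := (hM d b).trans hbd
  have hsum : ∀ f : V → ZMod 2, ∑ x ∈ ({a, b, c, d} : Finset V), f x =
      f a + (f b + (f c + f d)) := by
    intro f
    rw [Finset.sum_insert (by simp [nab, nac, nad]), Finset.sum_insert (by simp [nbc, nbd]),
      Finset.sum_pair ncd]
  have hall : ∀ p : V → Prop, p a → p b → p c → p d → ∀ v ∈ ({a, b, c, d} : Finset V), p v := by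
    intro p pa pb pc pd v hv
    simp only [Finset.mem_insert, Finset.mem_singleton] at hv
    rcases hv with rfl | rfl | rfl | rfl <;> assumption
  refine ⟨?_, ?_, ?_, ?_, ?_, ⟨a, by simp⟩⟩
  · intro h0
    have h1 : ∀ v ∈ ({a, b, c, d} : Finset V), v ≠ e := by
      refine hall _ ?_ ?_ ?_ ?_
      · rintro rfl
        exact n01 ((C.he b).symm.trans hab)
      · rintro rfl
        exact n01 ((C.he c).symm.trans hbc)
      · rintro rfl
        exact n01 ((C.he d).symm.trans hcd)
      · rintro rfl
        exact n01 ((C.he c).symm.trans hdc)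
    exact h1 e h0 rfl
  · rw [hsum]
    decide
  · refine hall _ ?_ ?_ ?_ ?_
    · rw [hsum, haa, hab, hac, had]
      decide
    · rw [hsum, hba, hbb, hbc, hbd]
      decide
    · rw [hsum, hca, hcb, hcc, hcd]
      decide
    · rw [hsum, hda, hdb, hdc, hdd]
      decide
  · intro σ hs h1
    have e1 := h1 a (by simp)
    have e2 := h1 b (by simp)
    have e3 := h1 c (by simp)
    have e4 := h1 d (by simp)
    rw [hsum] at hs e1 e2 e3 e4
    rw [haa, hab, hac, had] at e1
    rw [hba, hbb, hbc, hbd] at e2
    rw [hca, hcb, hcc, hcd] at e3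
    rw [hda, hdb, hdc, hdd] at e4
    have key : (σ a = 0 ∧ σ b = 0 ∧ σ c = 0 ∧ σ d = 0) ∨
        (σ a = 1 ∧ σ b = 1 ∧ σ c = 1 ∧ σ d = 1) := by
      clear h1 hsum hall
      revert hs e1 e2 e3 e4
      generalize σ a = p
      generalize σ b = q
      generalize σ c = r
      generalize σ d = s
      revert p q r s
      decide
    rcases key with ⟨k1, k2, k3, k4⟩ | ⟨k1, k2, k3, k4⟩
    · left
      exact hall _ k1 k2 k3 k4
    · right
      exact hall _ k1 k2 k3 k4
  · intro m hm
    rw [hsum] at hm
    refine ⟨fun x => if x = a then 0 else if x = b then m a else if x = c then m b else m c + m a,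
      0, ?_⟩
    have nba := nab.symm
    have nca := nac.symm
    have nda := nad.symm
    have ncb := nbc.symm
    have ndb := nbd.symm
    have ndc := ncd.symm
    have f1 : (fun x => if x = a then (0 : ZMod 2) else if x = b then m a else
        if x = c then m b else m c + m a) a = 0 := by simp
    have f2 : (fun x => if x = a then (0 : ZMod 2) else if x = b then m a else
        if x = c then m b else m c + m a) b = m a := by simp [nba]
    have f3 : (fun x => if x = a then (0 : ZMod 2) else if x = b then m a else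
        if x = c then m b else m c + m a) c = m b := by simp [nca, ncb]
    have f4 : (fun x => if x = a then (0 : ZMod 2) else if x = b then m a else
        if x = c then m b else m c + m a) d = m c + m a := by simp [nda, ndb, ndc]
    generalize (fun x => if x = a then (0 : ZMod 2) else if x = b then m a else
        if x = c then m b else m c + m a) = σ at f1 f2 f3 f4
    refine hall _ ?_ ?_ ?_ ?_
    · rw [hsum, f1, f2, f3, f4, haa, hab, hac, had]
      generalize m a = p
      generalize m b = q
      generalize m c = r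
      revert p q r
      decide
    · rw [hsum, f1, f2, f3, f4, hba, hbb, hbc, hbd]
      generalize m a = p
      generalize m b = q
      generalize m c = r
      revert p q r
      decide
    · rw [hsum, f1, f2, f3, f4, hca, hcb, hcc, hcd]
      generalize m a = p
      generalize m b = q
      generalize m c = r
      revert p q r
      decide
    · rw [hsum, f1, f2, f3, f4, hda, hdb, hdc, hdd]
      revert hm
      generalize m a = p
      generalize m b = q
      generalize m c = r
      generalize m d = s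
      revert p q r s
      decide

theorem gd_of_good (C : Ctx B H e S M) {T : Finset V} (h : Good M T) : GD M e T := by
  rcases h with ⟨u, v, h, rfl⟩ | ⟨a, b, c, d, h, haa, hbb, hcc, hdd, rfl⟩
  · exact gd_pair C h
  · exact gd_p4 C h haa hbb hcc hdd

theorem isT_good (C : Ctx B H e S M) {T : Finset V} (h : GD M e T) :
    IsT B H e T (wd M H e T) := isT_wd C h.he h.hev h.h1

theorem wd_zero_iff (C : Ctx B H e S M) {T : Finset V} (h : GD M e T) (w : V) :
    wd M H e T w = 0 ↔ ∑ x ∈ T, M w x = 0 := by
  constructor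
  · intro h0
    rw [← wd_fst (H := H) (e := e), h0]
    rfl
  · intro h0
    have hw : w ∉ T := by
      intro hw
      rw [h.h1 w hw] at h0
      exact absurd h0 (by decide)
    apply eq_zero_of (H := H)
    · rw [wd_fst]
      exact h0
    · rw [tt_wd h.hev, if_neg hw]

theorem irr_good (C : Ctx B H e S M) {T : Finset V} (h : GD M e T) :
    Irr B (wd M H e T) := by
  have hT := isT_good C h
  intro d hd hle
  have hde : (d e).1 = 0 := by
    rcases hle e with h1 | h1
    · rw [h1]
      rfl
    · rw [h1, hT.root]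
      rfl
  have hsupp : ∀ v, v ∉ T → tt H d v = 0 := by
    intro v hv
    rcases hle v with h1 | h1
    · exact tt_zero h1
    · have : tt H d v = tt H (wd M H e T) v := by
        unfold tt
        rw [h1]
      rw [this, hT.tout v hv]
  obtain ⟨p1, p2⟩ := rep C hd hde T hsupp
  obtain ⟨v1, _⟩ := hT.val (q := d) (fun v _ => hle v)
  rcases h.irr (tt H d) p2 (fun v hv => by rw [← p1 v, v1 v hv]) with h1 | h1
  · left
    apply uniq C hd hde
    intro v
    by_cases hv : v ∈ T
    · exact h1 v hv
    · exact hsupp v hv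
  · right
    have h2 : d + wd M H e T = 0 := by
      apply uniq C (B.add_mem hd hT.mem)
      · rw [Pi.add_apply, Prod.fst_add, hde, hT.root]
        rfl
      · intro v
        rw [tt_add]
        by_cases hv : v ∈ T
        · rw [h1 v hv, hT.tin v hv]
          decide
        · rw [hsupp v hv, hT.tout v hv, add_zero]
    rw [w_add_eq_iff, zero_add] at h2
    exact h2

theorem sp_of_splits (C : Ctx B H e S M) {T : Finset V} (h : GD M e T) {g : V}
    (hg : Splits B (wd M H e T) g) : Sp M T g ∅ := by
  obtain ⟨_, _, _, _, _, σ, h1, h2, h3⟩ := halves C (isT_good C h) hg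
  exact ⟨σ, h1, h2, fun w hw _ => h3 w ((wd_zero_iff C h w).2 hw)⟩

theorem own_good (C : Ctx B H e S M) {T : Finset V} (h : GD M e T) {Y : Finset V}
    (hY : S (wd M H e T) Y) {y : V} (hy : y ∈ Y) : Sp M T y Y := by
  have hT := isT_good C h
  have hy0 := C.hS.zero _ Y hY y hy
  have hy1 := (wd_zero_iff C h y).1 hy0
  obtain ⟨σ, α, hσ⟩ := h.sol (fun x => M x y) (by
    rw [Finset.sum_congr rfl fun x _ => C.hM x y]
    exact hy1)
  have hyT : y ∉ T := fun h0 => hT.ne y h0 hy0
  have heY := C.hS.root _ Y hY
  -- the word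
  have hq : rw' M H e y + ∑ x ∈ T, σ x • rw' M H e x + α • om H ∈ B :=
    B.add_mem (B.add_mem (rw_mem C y) (B.sum_mem fun x _ => B.smul_mem _ (rw_mem C x)))
      (B.smul_mem _ (om_mem C.hH))
  have hq1 : ∀ w, ((rw' M H e y + ∑ x ∈ T, σ x • rw' M H e x + α • om H) w).1 =
      M w y + ∑ x ∈ T, σ x * M w x + α := by
    intro w
    rw [Pi.add_apply, Pi.add_apply, Prod.fst_add, Prod.fst_add, Finset.sum_apply, Prod.fst_sum]
    have e1 : ((α • om H) w).1 = α := by
      show α * 1 = α
      rw [mul_one]
    rw [e1]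
    rfl
  have hq2 : ∀ w, w ≠ e → tt H (rw' M H e y + ∑ x ∈ T, σ x • rw' M H e x + α • om H) w =
      (if w = y then 1 else 0) + if w ∈ T then σ w else 0 := by
    intro w hw
    rw [tt_add, tt_add, tt_sum, tt_smul, tt_om, mul_zero, add_zero, tt_rw, if_neg hw, add_zero]
    congr 1
    rw [Finset.sum_congr rfl fun x _ => by rw [tt_smul, tt_rw, if_neg hw, add_zero]]
    simp only [mul_ite, mul_one, mul_zero]
    rw [Finset.sum_ite_eq]
  have hle := hT.below (q := rw' M H e y + ∑ x ∈ T, σ x • rw' M H e x + α • om H) (by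
    intro v hv
    have hve : v ≠ e := fun h0 => h.he (h0 ▸ hv)
    have hvy : v ≠ y := fun h0 => hyT (h0 ▸ hv)
    rw [hq1, hq2 v hve, if_neg hvy, if_pos hv, zero_add]
    exact hσ v hv) (by
    intro v hv hu
    have hve : v ≠ e := fun h0 => hu (by rw [h0]; exact hT.root)
    have hvy : v ≠ y := fun h0 => hu (by rw [h0]; exact hy0)
    rw [hq2 v hve, if_neg hvy, if_neg hv, add_zero])
  obtain ⟨σ', h1, h2, h3⟩ := fpart C hT hY hq hle hy (by
    intro v hv
    have hve : v ≠ e := fun h0 => heY (h0 ▸ hv)
    have hvT : v ∉ T := fun h0 => hT.ne v h0 (C.hS.zero _ Y hY v hv)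
    rw [hq2 v hve, if_neg hvT, add_zero])
  exact ⟨σ', h1, h2, fun w hw hwY => h3 w ((wd_zero_iff C h w).2 hw) hwY⟩

theorem ms (C : Ctx B H e S M) : MS M (fun T Y => S (wd M H e T) Y) := by
  refine ⟨C.hM, ?_, ?_, ?_, ?_⟩
  · intro T hT
    have h := gd_of_good C hT
    have h1 := isT_good C h
    rcases C.hS.ex _ h1.mem h1.zfree h1.root (h1.ne_zero h.ne) (irr_good C h) with ⟨g, hg⟩ | h2
    · exact Or.inl ⟨g, sp_of_splits C h hg⟩
    · exact Or.inr h2
  · intro T Y hT hY y hy
    exact own_good C (gd_of_good C hT) hY hy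
  · intro T Y hT hY y hy
    exact (wd_zero_iff C (gd_of_good C hT) y).1 (C.hS.zero _ Y hY y hy)
  · intro T Y hT hY T' hT' c1 c2
    have h := gd_of_good C hT
    have h' := gd_of_good C hT'
    have h1 := isT_good C h
    have h1' := isT_good C h'
    rcases C.hS.mono _ Y hY (irr_good C h) _ h1'.mem h1'.zfree (h1'.ne_zero h'.ne)
      (irr_good C h') (by
        intro v hv
        rcases c2 v (fun h0 => hv ((wd_zero_iff C h v).2 h0)) with ⟨d1, _⟩ | ⟨d1, d2⟩
        · exact Or.inl ((wd_zero_iff C h' v).2 d1)
        · right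
          apply ext_tt (H := H)
          · rw [wd_fst, wd_fst, d1]
            have h3 : ∑ x ∈ T, M v x ≠ 0 := fun h0 => hv ((wd_zero_iff C h v).2 h0)
            revert h3
            generalize ∑ x ∈ T, M v x = a
            revert a
            decide
          · rw [tt_wd h'.hev, tt_wd h.hev]
            by_cases hvT : v ∈ T
            · rw [if_pos hvT, if_pos (d2.2 hvT)]
            · rw [if_neg hvT, if_neg fun h0 => hvT (d2.1 h0)]) (by
        intro v hv hvY
        exact (wd_zero_iff C h' v).2 (c1 v ((wd_zero_iff C h v).1 hv) hvY).1) with ⟨g, hg⟩ | h2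
    · exact Or.inl ⟨g, sp_of_splits C h' hg⟩
    · exact Or.inr h2

end

/-- **the heart**: the matrix of a rooted code with sides -/
theorem core (V : Type) [Fintype V] [DecidableEq V] (B : Submodule (ZMod 2) (V → K)) (e : V)
    (H : V → V → ZMod 2) (S : (V → K) → Finset V → Prop) (hL : IsCode B) (hH : IsMat B H)
    (hS : RSides B e S) : ∃ M : V → V → ZMod 2, (∀ x y, M x y = M y x) ∧ (∀ x, M e x = 0) ∧
      (∀ u, u ≠ e → ∀ v, (∑ w, H u w * (M u v + M w v)) = if u = v then 1 else 0) ∧
      Pairs M ∧ P4Split M := by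
  obtain ⟨M, hM, he, hi⟩ := exists_inv' hL hH hS
  have C : Ctx B H e S M := ⟨hL, hH, hS, hM, he, hi⟩
  exact ⟨M, hM, he, hi, (ms C).pairs, (ms C).p4split⟩

end Pool.Agent.H86.Q
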