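import Mathlib
import Pool.Agent.H57.Code.Lp
import Pool.Agent.H64.Pent.Final

set_option autoImplicit false

/-!
The end of the circuit-critical case (MP_a46c6f_co): a pointed word of weight three with a side
without matching edges of weight two is a circuit of length five.
-/

namespace Pool.Agent.H86.Q

open SimpleGraph Pool.Agent.H5.Goddyn Pool.Agent.H98.TC Pool.Agent.H64.Pent Pool.Agent.H98.Code
  Pool.Agent.H57.Code

variable {n : ℕ}

lemma z2 (t : ZMod 2) : t = 0 ∨ t = 1 := by
  revert t
  decide

/-- off `g`, `i`, `j` the side is empty -/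
lemma off (p : Equiv.Perm (ZMod n)) (a b : ZMod n → ZMod 2) (hev : Ev p a b)
    (hown : ∀ k, ¬ (a (k - 1) = 1 ∧ a k = 1 ∧ b (p k - 1) = 1 ∧ b (p k) = 1)) (k : ZMod n)
    (hk : word p a b k = 0) : a (k - 1) = 0 ∧ a k = 0 ∧ b (p k - 1) = 0 ∧ b (p k) = 0 := by
  have h1 := hev k
  have h2 := congrArg Prod.fst hk
  have h3 := congrArg Prod.snd hk
  have h4 := hown k
  simp only [word, Prod.fst_zero, Prod.snd_zero] at h2 h3
  rcases z2 (a (k - 1)) with e1 | e1 <;> rcases z2 (a k) with e2 | e2 <;>
    rcases z2 (b (p k - 1)) with e3 | e3 <;> rcases z2 (b (p k)) with e4 | e4 <;>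
    simp only [e1, e2, e3, e4] at h1 h2 h3 h4 ⊢ <;>
    first
    | exact ⟨trivial, trivial, trivial, trivial⟩
    | exact absurd h1 (by decide)
    | exact absurd h2 (by decide)
    | exact absurd h3 (by decide)
    | exact absurd ⟨trivial, trivial, trivial, trivial⟩ h4
    | simp_all

theorem end5 (p : Equiv.Perm (ZMod n)) (hn : 3 ≤ n) (a b : ZMod n → ZMod 2) (hev : Ev p a b)
    (hown : ∀ k, ¬ (a (k - 1) = 1 ∧ a k = 1 ∧ b (p k - 1) = 1 ∧ b (p k) = 1)) (g i j : ZMod n)
    (hgi : g ≠ i) (hgj : g ≠ j) (hij : i ≠ j) (hg : word p a b g = z)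
    (hi : (word p a b i).1 = 1) (hj : (word p a b j).1 = 1)
    (h0 : ∀ k, k ≠ g → k ≠ i → k ≠ j → word p a b k = 0) :
    (∃ f, p (f + 2) = p f + 1 ∨ p (f + 2) = p f - 1) ∨
      (∃ f, p.symm (f + 2) = p.symm f + 1 ∨ p.symm (f + 2) = p.symm f - 1) := by
  have : NeZero n := ⟨by omega⟩
  have : Fact (1 < n) := ⟨by omega⟩
  have hone : (1 : ZMod n) ≠ 0 := one_ne_zero
  have htwo : (2 : ZMod n) ≠ 0 := by
    intro h
    have h1 : ((2 : ℕ) : ZMod n) = 0 := by exact_mod_cast h
    rw [ZMod.natCast_eq_zero_iff] at h1
    have := Nat.le_of_dvd (by norm_num) h1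
    omega
  have hg1 := congrArg Prod.fst hg
  have hg2 := congrArg Prod.snd hg
  have hg3 := hev g
  simp only [word, z] at hg1 hg2
  have hcase : (a (g - 1) = 1 ∧ a g = 1 ∧ b (p g - 1) = 0 ∧ b (p g) = 0) ∨
      (a (g - 1) = 0 ∧ a g = 0 ∧ b (p g - 1) = 1 ∧ b (p g) = 1) := by
    generalize a (g - 1) = x1 at *
    generalize a g = x2 at *
    generalize b (p g - 1) = x3 at *
    generalize b (p g) = x4 at *
    clear hown h0 hi hj
    revert x1 x2 x3 x4
    decide
  have offk : ∀ k, k ≠ g → k ≠ i → k ≠ j →
      a (k - 1) = 0 ∧ a k = 0 ∧ b (p k - 1) = 0 ∧ b (p k) = 0 := fun k k1 k2 k3 =>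
    off p a b hev hown k (h0 k k1 k2 k3)
  have hi' : a (i - 1) + a i = 1 := hi
  have hi2 : b (p i - 1) + b (p i) = 1 := by rw [← hev i]; exact hi
  have z01 : ∀ t : ZMod 2, t = 0 → t = 1 → False := by decide
  rcases hcase with ⟨c1, c2, c3, c4⟩ | ⟨c1, c2, c3, c4⟩
  · left
    -- the vertices `g + 1`, `g - 1` are `i`, `j`
    have e1 : g + 1 = i ∨ g + 1 = j := by
      by_contra hcon
      push Not at hcon
      have h1 := (offk (g + 1) (by simp [hone]) hcon.1 hcon.2).1
      rw [add_sub_cancel_right] at h1
      exact z01 _ h1 c2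
    have e2 : g - 1 = i ∨ g - 1 = j := by
      by_contra hcon
      push Not at hcon
      have h1 := (offk (g - 1) (by simp [hone]) hcon.1 hcon.2).2.1
      exact z01 _ h1 c1
    have e3 : g - 1 ≠ g + 1 := by
      intro h
      apply htwo
      linear_combination -h
    have e4 : p j = p i + 1 ∨ p j = p i - 1 := by
      rcases z2 (b (p i)) with h1 | h1
      · have h2 : b (p i - 1) = 1 := by rw [h1, add_zero] at hi2; exact hi2
        right
        by_contra hcon
        have h3 := offk (p.symm (p i - 1))
          (fun h => z01 (b (p i - 1)) (by rw [← c4, ← h, Equiv.apply_symm_apply]) h2)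
          (fun h => hone (by
            have := congrArg p h
            rw [Equiv.apply_symm_apply] at this
            linear_combination -this))
          (fun h => hcon (by rw [← h, Equiv.apply_symm_apply]))
        rw [Equiv.apply_symm_apply] at h3
        exact z01 _ h3.2.2.2 h2
      · left
        by_contra hcon
        have h3 := offk (p.symm (p i + 1))
          (fun h => z01 (b (p i)) (by
            have := c3
            rw [← h, Equiv.apply_symm_apply, add_sub_cancel_right] at this
            exact this) h1)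
          (fun h => hone (by
            have := congrArg p h
            rw [Equiv.apply_symm_apply] at this
            linear_combination this))
          (fun h => hcon (by rw [← h, Equiv.apply_symm_apply]))
        rw [Equiv.apply_symm_apply, add_sub_cancel_right] at h3
        exact z01 _ h3.2.2.1 h1
    refine ⟨g - 1, ?_⟩
    have e5 : g - 1 + 2 = g + 1 := by ring
    rw [e5]
    rcases e1 with e1 | e1 <;> rcases e2 with e2 | e2
    · exact absurd (e2.trans e1.symm) e3
    · rw [e1, e2]
      rcases e4 with e4 | e4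
      · right; rw [e4]; ring
      · left; rw [e4]; ring
    · rw [e1, e2]
      exact e4
    · exact absurd (e2.trans e1.symm) e3
  · right
    have e1 : p g + 1 = p i ∨ p g + 1 = p j := by
      by_contra hcon
      push Not at hcon
      have h1 := offk (p.symm (p g + 1))
        (fun h => hone (by
            have := congrArg p h
            rw [Equiv.apply_symm_apply] at this
            linear_combination this))
        (fun h => hcon.1 (by rw [← h, Equiv.apply_symm_apply]))
        (fun h => hcon.2 (by rw [← h, Equiv.apply_symm_apply]))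
      rw [Equiv.apply_symm_apply, add_sub_cancel_right] at h1
      exact z01 _ h1.2.2.1 c4
    have e2 : p g - 1 = p i ∨ p g - 1 = p j := by
      by_contra hcon
      push Not at hcon
      have h1 := offk (p.symm (p g - 1))
        (fun h => hone (by
            have := congrArg p h
            rw [Equiv.apply_symm_apply] at this
            linear_combination -this))
        (fun h => hcon.1 (by rw [← h, Equiv.apply_symm_apply]))
        (fun h => hcon.2 (by rw [← h, Equiv.apply_symm_apply]))
      rw [Equiv.apply_symm_apply] at h1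
      exact z01 _ h1.2.2.2 c3
    have e3 : p g - 1 ≠ p g + 1 := by
      intro h
      apply htwo
      linear_combination -h
    have e4 : j = i + 1 ∨ j = i - 1 := by
      rcases z2 (a i) with h1 | h1
      · have h2 : a (i - 1) = 1 := by rw [h1, add_zero] at hi'; exact hi'
        right
        by_contra hcon
        have h3 := offk (i - 1)
          (fun h => z01 (a (i - 1)) (by rw [h]; exact c2) h2)
          (by simp [hone]) (fun h => hcon h.symm)
        exact z01 _ h3.2.1 h2
      · left
        by_contra hcon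
        have h3 := offk (i + 1)
          (fun h => z01 (a i) (by
            have := c1
            rw [← h, add_sub_cancel_right] at this
            exact this) h1)
          (by simp [hone]) (fun h => hcon h.symm)
        rw [add_sub_cancel_right] at h3
        exact z01 _ h3.1 h1
    refine ⟨p g - 1, ?_⟩
    have e5 : p g - 1 + 2 = p g + 1 := by ring
    rw [e5]
    rcases e1 with e1 | e1 <;> rcases e2 with e2 | e2
    · exact absurd (e2.trans e1.symm) e3
    · rw [e1, e2, Equiv.symm_apply_apply, Equiv.symm_apply_apply]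
      rcases e4 with e4 | e4
      · right; rw [e4]; ring
      · left; rw [e4]; ring
    · rw [e1, e2, Equiv.symm_apply_apply, Equiv.symm_apply_apply]
      exact e4
    · exact absurd (e2.trans e1.symm) e3

/-- the end: such a word gives `(P₁₀, w₁₀)` -/
theorem petersen_of_end5 {V : Type*} [Finite V] (G : SimpleGraph V) (M C₁ C₂ : G.Subgraph)
    (h : IsPermutationGraph G M C₁ C₂) (hrem : ∀ C : G.Subgraph, ¬ Removable G (wt M) C) {n : ℕ}
    (hn : 3 ≤ n) (x y : ZMod n → V) (p : Equiv.Perm (ZMod n)) (hx : Numb C₁ x) (hy : Numb C₂ y)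
    (hM : ∀ i, M.Adj (x i) (y (p i))) (a b : ZMod n → ZMod 2) (hev : Ev p a b)
    (hown : ∀ k, ¬ (a (k - 1) = 1 ∧ a k = 1 ∧ b (p k - 1) = 1 ∧ b (p k) = 1)) (g i j : ZMod n)
    (hgi : g ≠ i) (hgj : g ≠ j) (hij : i ≠ j) (hg : word p a b g = z)
    (hi : (word p a b i).1 = 1) (hj : (word p a b j).1 = 1)
    (h0 : ∀ k, k ≠ g → k ≠ i → k ≠ j → word p a b k = 0) : IsPetersenPair G M := by
  rcases end5 p hn a b hev hown g i j hgi hgj hij hg hi hj h0 with h1 | h1
  · exact fin_both G M C₁ C₂ h hrem hn x y p hx hy hM h1
  · refine fin_both G M C₂ C₁ (swap' h) hrem hn y x p.symm hy hx (fun j => ?_) h1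
    have h2 := (hM (p.symm j)).symm
    rwa [Equiv.apply_symm_apply] at h2

end Pool.Agent.H86.Q
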